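import Pool.Agent.N554.TG.Stm
import Pool.Agent.Helper378.KW
import Pool.Agent.Helper378.Select

set_option autoImplicit false

open Finset

namespace Pool.Agent.N554.TG

open Pool.Agent.Helper378.KW Pool.Agent.Helper378.Select

lemma card_G (q k N : ℕ) [NeZero q] : Fintype.card (G q k N) = q ^ (k * N) := by
  simp [G, ZMod.card, pow_mul]

lemma not_bad_self {q k N : ℕ} (t : ℕ) (u : G q k N) : ¬ bad t u u := fun h => h.1 rfl

lemma not_adj_self {q k N : ℕ} [NeZero q] (t : ℕ) (ht : 1 ≤ t) (u : G q k N) : ¬ adj t u u := by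
  intro h
  have := h.1
  simp [dif] at this
  omega

theorem t_core (h1 : S_LIFT) (h2 : S_BAD) (h3 : S_NUM) : S_CORE := by
  intro κ q k N hqp hκ hk hkq hN
  classical
  have hq0 : 0 < q := hqp.out.pos
  have hq2 : 2 ≤ q := hqp.out.two_le
  obtain ⟨n1, n2, n3, n4, n5, n6, n7, n8⟩ := h3 κ q k N (Nat.clog 2 q) hκ hk hkq hN rfl
  set w := Nat.clog 2 q with hw
  have hk8 : 8 ≤ k := by omega
  have hkN : k ≤ N := by omega
  have hkleq : k ≤ q := by nlinarith
  have hNq : N ≤ q := by nlinarith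
  have hw1 : 1 ≤ w := by
    by_contra hcon
    have : w = 0 := by omega
    rw [this] at n3
    omega
  obtain ⟨b, hb⟩ : ∃ b : ℕ, b = N.choose (k - 1) * q ^ (k * (k - 1)) := ⟨_, rfl⟩
  obtain ⟨C, hC⟩ : ∃ C : ℕ, C = N.choose k := ⟨_, rfl⟩
  obtain ⟨B1, hB1⟩ : ∃ B1 : ℕ, B1 = (q.choose (k - 1)) ^ k * q ^ k * N.choose k := ⟨_, rfl⟩
  obtain ⟨M, hM⟩ : ∃ M : ℕ, M = q ^ (2 * κ) := ⟨_, rfl⟩
  obtain ⟨nV, hnV⟩ : ∃ nV : ℕ, nV = q ^ (k * N) := ⟨_, rfl⟩
  rw [← hb, ← hB1, ← hM] at n5
  rw [← hC, ← hM] at n4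
  rw [← hb, ← hM, ← hnV] at n6
  rw [← hB1] at n7
  rw [← hnV] at n8
  have hCpos : 0 < C := by rw [hC]; exact Nat.choose_pos hkN
  have hC1pos : 0 < q.choose (k - 1) := Nat.choose_pos (by omega)
  have hB1pos : 0 < B1 := by
    rw [hB1]
    exact Nat.mul_pos (Nat.mul_pos (pow_pos hC1pos _) (pow_pos hq0 _)) (by rw [← hC]; exact hCpos)
  have hb8 : 8 ≤ b := by
    rw [hb]
    have e1 : 1 ≤ N.choose (k - 1) := Nat.choose_pos (by omega)
    have e2 : 2 ^ 3 ≤ q ^ (k * (k - 1)) := by
      calc 2 ^ 3 ≤ q ^ 3 := Nat.pow_le_pow_left hq2 3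
        _ ≤ q ^ (k * (k - 1)) := Nat.pow_le_pow_right hq0 (by
          have : 7 ≤ k - 1 := by omega
          nlinarith)
    nlinarith
  have hMpos : 0 < M := by rw [hM]; exact pow_pos hq0 _
  have hnVpos : 0 < nV := by rw [hnV]; exact pow_pos hq0 _
  have hCle : C ≤ q ^ k := by
    rw [hC]
    exact (Nat.choose_le_pow N k).trans (Nat.pow_le_pow_left hNq k)
  have hble : b ≤ q ^ ((k + 1) * k) := by
    rw [hb]
    calc N.choose (k - 1) * q ^ (k * (k - 1)) ≤ q ^ (k - 1) * q ^ (k * (k - 1)) := by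
          apply Nat.mul_le_mul_right
          exact (Nat.choose_le_pow N (k - 1)).trans (Nat.pow_le_pow_left hNq _)
      _ = q ^ ((k - 1) + k * (k - 1)) := by rw [← pow_add]
      _ ≤ q ^ ((k + 1) * k) := by
          apply Nat.pow_le_pow_right hq0
          have : (k - 1) + k * (k - 1) = (k + 1) * (k - 1) := by ring
          rw [this]
          exact Nat.mul_le_mul_left _ (Nat.sub_le _ _)
  -- real quantities
  have qpos : (0 : ℝ) < q := by exact_mod_cast hq0
  have Cpos : (0 : ℝ) < C := by exact_mod_cast hCpos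
  have B1pos : (0 : ℝ) < B1 := by exact_mod_cast hB1pos
  have bpos : (8 : ℝ) ≤ b := by exact_mod_cast hb8
  have bpos' : (0 : ℝ) < b := by linarith
  have Mpos : (0 : ℝ) < M := by exact_mod_cast hMpos
  have nVpos : (0 : ℝ) < nV := by exact_mod_cast hnVpos
  have Npos : (0 : ℝ) < N := by
    have : 0 < N := by omega
    exact_mod_cast this
  have N16 : (16 : ℝ) ≤ N := by
    have : 16 ≤ N := by omega
    exact_mod_cast this
  set lam : ℝ := 2 / b with hlam
  have hlam0 : 0 < lam := by positivity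
  have hlam1 : lam ≤ 1 := by rw [hlam, div_le_one bpos']; linarith
  set β : ℝ := B1 / (4 * nV) with hβ
  have hβ0 : 0 < β := by positivity
  have hB1nV : (B1 : ℝ) ≤ nV := by exact_mod_cast n7.trans n8
  have hβ1 : β ≤ 1 := by
    rw [hβ, div_le_one (by positivity)]; linarith
  set ρ : ℝ := 4 * N * nV / (q * C) with hρ
  have hρ0 : 0 < ρ := by positivity
  set R : ℕ := ⌈ρ⌉₊ with hR
  have hRge : ρ ≤ R := Nat.le_ceil _
  have hRle : (R : ℝ) ≤ ρ + 1 := (Nat.ceil_lt_add_one hρ0.le).le
  have hRpos : 1 ≤ R := by rw [hR]; exact Nat.one_le_iff_ne_zero.mpr (Nat.ceil_pos.mpr hρ0).ne'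
  have hRposr : (0 : ℝ) < R := by exact_mod_cast hRpos
  have n4r : 384 * (N : ℝ) * M ≤ q * C := by exact_mod_cast n4
  have n5r : 288 * (b : ℝ) * (w ^ 2 * (k + 1) ^ 2 * k) * M ≤ B1 := by exact_mod_cast n5
  have n6r : 24 * (b : ℝ) * (8 + w * (k + 1) * k) * M ≤ nV := by exact_mod_cast n6
  have M1 : (1 : ℝ) ≤ M := by exact_mod_cast hMpos
  have hρnV : ρ ≤ nV := by
    rw [hρ, div_le_iff₀ (by positivity)]
    have : 4 * (N : ℝ) ≤ q * C := by nlinarith
    nlinarith
  have hRnV : R ≤ nV := by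
    rw [hR]; exact Nat.ceil_le.mpr hρnV
  -- the number of steps
  set M0 : ℕ := ⌈2 / β⌉₊ with hM0
  have hM0ge : 2 / β ≤ M0 := Nat.le_ceil _
  have hM0le : (M0 : ℝ) ≤ 3 / β := by
    have h := (Nat.ceil_lt_add_one (a := 2 / β) (by positivity)).le
    have : 1 ≤ 1 / β := by rw [le_div_iff₀ hβ0]; linarith
    calc (M0 : ℝ) ≤ 2 / β + 1 := h
      _ ≤ 2 / β + 1 / β := by linarith
      _ = 3 / β := by ring
  obtain ⟨L, hL⟩ : ∃ L : ℕ, L = w * (k + 1) * k := ⟨_, rfl⟩
  have hL1 : 1 ≤ L := by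
    rw [hL]
    have : 1 ≤ w * (k + 1) := by nlinarith
    nlinarith
  have h2L : q ^ ((k + 1) * k) ≤ 2 ^ L := by
    calc q ^ ((k + 1) * k) ≤ (2 ^ w) ^ ((k + 1) * k) := Nat.pow_le_pow_left n3 _
      _ = 2 ^ L := by rw [← pow_mul, hL]; congr 1; ring
  set K : ℕ := M0 * L with hK
  have hKge : 2 / β ≤ K := by
    refine hM0ge.trans ?_
    rw [hK]
    exact_mod_cast Nat.le_mul_of_pos_right M0 hL1
  have hKle : (K : ℝ) ≤ 3 / β * L := by
    rw [hK]; push_cast
    exact mul_le_mul_of_nonneg_right hM0le (by positivity)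
  have hhalf : (1 - β / 2) ^ K ≤ (1 / 2) ^ L := by
    rw [hK, pow_mul]
    apply pow_le_pow_left₀ (pow_nonneg (by linarith) _)
    have hB := one_sub_pow_le (β / 2) (by linarith) (by linarith) M0
    have h5 : 1 ≤ (M0 : ℝ) * (β / 2) := by
      have : 2 / β * (β / 2) = 1 := by field_simp
      calc (1 : ℝ) = 2 / β * (β / 2) := this.symm
        _ ≤ M0 * (β / 2) := mul_le_mul_of_nonneg_right hM0ge (by positivity)
    have h6 : 0 ≤ (1 - β / 2) ^ M0 := pow_nonneg (by linarith) _
    nlinarith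
  -- KW
  have hkw := KW_bound (adj (q := q) (k := k) (N := N) k) (univ : Finset (G q k N)) (lam := lam)
    (β := β) hlam0.le hβ0.le hβ1 R K nV hRpos hRnV (by rw [Finset.card_univ, card_G, hnV])
    (by
      intro A _ hA
      by_contra hcon
      push Not at hcon
      have hAr : (R : ℝ) < A.card := by exact_mod_cast hA
      have hApos : (0 : ℝ) < A.card := lt_trans hRposr hAr
      have hlift := h1 q k N k (by omega) hkleq (by omega) hkN n1 A
      have hsum : (((A ×ˢ A).filter (fun p => adj k p.1 p.2)).card : ℝ)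
          = ∑ v ∈ A, ((A.filter (fun u => adj k v u)).card : ℝ) := by
        rw [Finset.card_filter, Finset.sum_product]
        push_cast
        apply Finset.sum_congr rfl
        intro v _
        rw [Finset.card_filter]
        push_cast
        rfl
      have hlt : (((A ×ˢ A).filter (fun p => adj k p.1 p.2)).card : ℝ) < β * A.card * A.card := by
        rw [hsum]
        have hne : A.Nonempty := by
          rw [← Finset.card_pos]; exact_mod_cast hApos
        calc ∑ v ∈ A, ((A.filter (fun u => adj k v u)).card : ℝ) < ∑ _v ∈ A, β * A.card := by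
              apply Finset.sum_lt_sum_of_nonempty hne
              intro v hv
              exact hcon v hv
          _ = β * A.card * A.card := by rw [Finset.sum_const, nsmul_eq_mul]; ring
      rw [← hC] at hlift
      have hkq' : (q : ℝ) ^ (k * N) = nV := by rw [hnV]; push_cast; rfl
      rw [hkq'] at hlift
      have hpow : (q : ℝ) ^ k = q * q ^ (k - 1) := by
        rw [← pow_succ']; congr 1; omega
      have hρA : ρ ≤ A.card := hRge.trans hAr.le
      have hkey : (N : ℝ) * (q : ℝ) ^ (k - 1) ≤ 1 / 4 * (q : ℝ) ^ k * C * A.card / nV := by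
        rw [le_div_iff₀ nVpos, hpow]
        have h7 : 4 * (N : ℝ) * nV ≤ A.card * (q * C) := by
          rw [hρ, div_le_iff₀ (by positivity)] at hρA
          exact hρA
        have h8 : 0 < (q : ℝ) ^ (k - 1) := by positivity
        have h8' := mul_le_mul_of_nonneg_left h7 h8.le
        linarith
      have hβe : β * A.card * A.card
          = ((q.choose (k - 1) : ℕ) : ℝ) ^ k * (1 / 4 * (q : ℝ) ^ k * C * A.card ^ 2 / nV) := by
        rw [hβ, hB1, ← hC]; push_cast; field_simp
      have h9 : ((q.choose (k - 1) : ℕ) : ℝ) ^ k * (1 / 4 * (q : ℝ) ^ k * C * A.card ^ 2 / nV)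
          ≤ ((q.choose (k - 1) : ℕ) : ℝ) ^ k * (1 / 2 * (q : ℝ) ^ k * C * A.card ^ 2 / nV
            - N * (q : ℝ) ^ (k - 1) * A.card) := by
        apply mul_le_mul_of_nonneg_left _ (by positivity)
        have h10 : 1 / 2 * (q : ℝ) ^ k * C * A.card ^ 2 / nV
            = 1 / 4 * (q : ℝ) ^ k * C * A.card ^ 2 / nV
              + 1 / 4 * (q : ℝ) ^ k * C * A.card / nV * A.card := by
          field_simp; ring
        rw [h10]
        have := mul_le_mul_of_nonneg_right hkey hApos.le
        linarith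
      linarith)
    (fun v => not_adj_self k (by omega) v)
    (by
      have hp0 : (0 : ℝ) ≤ (1 - β / 2) ^ K := pow_nonneg (by linarith) _
      have hKr : (0 : ℝ) ≤ K := by positivity
      have h2Lr : (B1 : ℝ) ≤ 2 ^ L := by exact_mod_cast n7.trans h2L
      have h2L2 : (2 : ℝ) ≤ 2 ^ L := by
        calc (2 : ℝ) = 2 ^ 1 := by norm_num
          _ ≤ 2 ^ L := pow_le_pow_right₀ (by norm_num) hL1
      have h2Lp : (0 : ℝ) < 2 ^ L := by positivity
      calc lam * (1 - β / 2) ^ K * (2 * nV + K) ≤ 1 * (1 / 2) ^ L * (2 * nV + K) := by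
            apply mul_le_mul_of_nonneg_right _ (by positivity)
            exact mul_le_mul hlam1 hhalf hp0 (by norm_num)
        _ = (2 * nV) / 2 ^ L + K / 2 ^ L := by
            rw [one_div, inv_pow]; field_simp
        _ ≤ K / 2 + K / 2 := by
            apply add_le_add
            · rw [div_le_iff₀ h2Lp]
              have hKb : 8 * (nV : ℝ) ≤ K * B1 := by
                have : 2 / β = 8 * nV / B1 := by rw [hβ]; field_simp; norm_num
                rw [this, div_le_iff₀ B1pos] at hKge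
                exact hKge
              have : (K : ℝ) * B1 ≤ K * 2 ^ L := mul_le_mul_of_nonneg_left h2Lr hKr
              nlinarith
            · exact div_le_div_of_nonneg_left hKr (by norm_num) h2L2
        _ = K := by ring)
    univ (Finset.Subset.refl _)
  -- bound for Z
  set e1 : ℕ := 2 * ⌈lam * R⌉₊ with he1
  set e2 : ℕ := w * (k + 1) * K with he2
  set s : ℕ := e1 + e2 + (3 + L) with hs
  have hZ : Z (adj (q := q) (k := k) (N := N) k) lam univ ≤ 2 ^ (e1 + e2) := by
    refine hkw.trans ?_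
    rw [Finset.card_univ, card_G, ← hnV, pow_add]
    apply mul_le_mul _ _ (by positivity) (by positivity)
    · have h11 : (1 + lam) ≤ Real.exp lam := by
        have := Real.add_one_le_exp lam; linarith
      calc (1 + lam) ^ R ≤ (Real.exp lam) ^ R := pow_le_pow_left₀ (by linarith) h11 _
        _ = Real.exp (R * lam) := by rw [← Real.exp_nat_mul]
        _ ≤ Real.exp ((⌈lam * R⌉₊ : ℕ) * 1) := by
            apply Real.exp_le_exp.mpr
            rw [mul_one, mul_comm]
            exact Nat.le_ceil _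
        _ = (Real.exp 1) ^ ⌈lam * R⌉₊ := by rw [Real.exp_nat_mul]
        _ ≤ 4 ^ ⌈lam * R⌉₊ := by
            apply pow_le_pow_left₀ (Real.exp_pos _).le
            have := Real.exp_one_lt_d9; linarith
        _ = 2 ^ e1 := by
            rw [he1, pow_mul]; norm_num
    · have h12 : ((R : ℝ) + nV) / R ≤ 2 ^ (w * (k + 1)) := by
        have h13 : (nV : ℝ) / R ≤ q * C / (4 * N) := by
          rw [div_le_div_iff₀ hRposr (by positivity)]
          have h14 : 4 * (N : ℝ) * nV ≤ R * (q * C) := by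
            have := hRge
            rw [hρ, div_le_iff₀ (by positivity)] at this
            exact this
          linarith
        have h15 : (q : ℝ) * C / (4 * N) ≤ q * C / 2 := by
          apply div_le_div_of_nonneg_left (by positivity) (by norm_num)
          linarith
        have h16 : (q : ℝ) * C ≤ 2 ^ (w * (k + 1)) := by
          have h17 : q * C ≤ 2 ^ (w * (k + 1)) := by
            calc q * C ≤ q * q ^ k := Nat.mul_le_mul_left _ hCle
              _ = q ^ (k + 1) := by rw [pow_succ']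
              _ ≤ (2 ^ w) ^ (k + 1) := Nat.pow_le_pow_left n3 _
              _ = 2 ^ (w * (k + 1)) := by rw [← pow_mul]
          exact_mod_cast h17
        have h18 : (2 : ℝ) ≤ 2 ^ (w * (k + 1)) := by
          calc (2 : ℝ) = 2 ^ 1 := by norm_num
            _ ≤ 2 ^ (w * (k + 1)) := pow_le_pow_right₀ (by norm_num) (by nlinarith)
        rw [add_div, div_self hRposr.ne']
        linarith
      calc (((R : ℝ) + nV) / R) ^ K ≤ (2 ^ (w * (k + 1))) ^ K :=
            pow_le_pow_left₀ (by positivity) h12 _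
        _ = 2 ^ e2 := by rw [← pow_mul, he2]
  -- counting
  set F : Finset (Finset (G q k N)) :=
    ((univ : Finset (G q k N)).powersetCard s).filter
      (fun I => Indep (adj (q := q) (k := k) (N := N) k) I) with hF
  have hcnt := count_le_Z (adj (q := q) (k := k) (N := N) k) hlam0.le univ s
  rw [← hF] at hcnt
  have hb2 : 2 * b - 1 + 1 = 2 * b := by omega
  have hb2r : (((2 * b - 1 : ℕ) : ℝ) + 1) = 2 * b := by exact_mod_cast hb2
  have h8b : 8 * (b : ℝ) ≤ 2 ^ (3 + L) := by
    have : 8 * b ≤ 2 ^ (3 + L) := by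
      rw [pow_add]
      exact Nat.mul_le_mul (by norm_num) (hble.trans h2L)
    exact_mod_cast this
  have hcount : (F.card : ℝ) * (4 * (((2 * b - 1 : ℕ) : ℝ) + 1))
      ≤ (((2 * b - 1 : ℕ) : ℝ) + 1) ^ s := by
    rw [hb2r]
    have hls : 0 < lam ^ s := by positivity
    have h19 : (F.card : ℝ) * lam ^ s ≤ 2 ^ (e1 + e2) := hcnt.trans hZ
    have h20 : (F.card : ℝ) * (4 * (2 * b)) * lam ^ s ≤ (2 * b) ^ s * lam ^ s := by
      have h21 : (2 * (b : ℝ)) ^ s * lam ^ s = 2 ^ s * 2 ^ s := by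
        rw [← mul_pow, ← mul_pow, hlam]
        congr 1
        field_simp
      rw [h21]
      calc (F.card : ℝ) * (4 * (2 * b)) * lam ^ s = (F.card * lam ^ s) * (8 * b) := by ring
        _ ≤ 2 ^ (e1 + e2) * 2 ^ (3 + L) := mul_le_mul h19 h8b (by positivity) (by positivity)
        _ = 2 ^ s * 1 := by rw [← pow_add, mul_one]
        _ ≤ 2 ^ s * 2 ^ s := by
            apply mul_le_mul_of_nonneg_left _ (by positivity)
            exact one_le_pow₀ (by norm_num)
    exact le_of_mul_le_mul_right h20 hls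
  obtain ⟨X, _, hXbad, hXcard, hXF⟩ := selection (univ : Finset (G q k N))
    (bad (q := q) (k := k) (N := N) k) (2 * b - 1) b s
    (fun v _ => by
      have := h2 q k N k (by omega) hkN v
      rw [← hb] at this
      exact this)
    (by omega)
    (fun v => not_bad_self k v)
    (by rw [Finset.card_univ, card_G, ← hnV]; exact hnVpos)
    F
    (by
      intro I hI
      rw [hF] at hI
      exact (Finset.mem_powersetCard.mp (Finset.mem_filter.mp hI).1).2)
    hcount
  refine ⟨X, hXbad, ?_⟩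
  intro T hTX hT
  have hTs : T.card < s := by
    by_contra hcon
    push Not at hcon
    obtain ⟨I, hIT, hIs⟩ := Finset.exists_subset_card_eq hcon
    apply hXF I _ (hIT.trans hTX)
    rw [hF, Finset.mem_filter, Finset.mem_powersetCard]
    exact ⟨⟨Finset.subset_univ _, hIs⟩, fun v hv u hu => hT v (hIT hv) u (hIT hu)⟩
  rw [Finset.card_univ, card_G, ← hnV, hb2r] at hXcard
  rw [← hM]
  have hTsr : (T.card : ℝ) < s := by exact_mod_cast hTs
  -- bound of s
  have hLr : (L : ℝ) = w * (k + 1) * k := by rw [hL]; push_cast; ring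
  have he1r : (e1 : ℝ) ≤ 16 * N * nV / (b * (q * C)) + 3 := by
    have h22 : (⌈lam * R⌉₊ : ℝ) ≤ lam * R + 1 := (Nat.ceil_lt_add_one (by positivity)).le
    have h23 : lam * R ≤ lam * (ρ + 1) := mul_le_mul_of_nonneg_left hRle hlam0.le
    have h24 : lam * ρ = 8 * N * nV / (b * (q * C)) := by
      rw [hlam, hρ]; field_simp; norm_num
    have h25 : lam ≤ 1 / 4 := by
      rw [hlam, div_le_iff₀ bpos']; linarith
    have h26 : (e1 : ℝ) = 2 * (⌈lam * R⌉₊ : ℝ) := by rw [he1]; push_cast; ring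
    rw [h26]
    have h27 : lam * (ρ + 1) = lam * ρ + lam := by ring
    have h28 : 16 * (N : ℝ) * nV / (b * (q * C)) = 2 * (8 * N * nV / (b * (q * C))) := by ring
    rw [h28, ← h24]
    linarith
  have he2r : (e2 : ℝ) ≤ 12 * nV * (w ^ 2 * (k + 1) ^ 2 * k) / B1 := by
    have h29 : (e2 : ℝ) = w * (k + 1) * K := by rw [he2]; push_cast; ring
    rw [h29]
    calc (w : ℝ) * (k + 1) * K ≤ w * (k + 1) * (3 / β * L) :=
          mul_le_mul_of_nonneg_left hKle (by positivity)
      _ = 12 * nV * (w ^ 2 * (k + 1) ^ 2 * k) / B1 := by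
          rw [hLr, hβ]; field_simp; ring
  have hsr : (s : ℝ) ≤ 16 * N * nV / (b * (q * C)) + 12 * nV * (w ^ 2 * (k + 1) ^ 2 * k) / B1
      + (8 + w * (k + 1) * k) := by
    have h30 : (s : ℝ) = e1 + e2 + (3 + L) := by rw [hs]; push_cast; ring
    rw [h30, hLr]
    linarith
  have ha : 16 * (N : ℝ) * nV / (b * (q * C)) * M ≤ nV / (24 * b) := by
    rw [div_mul_eq_mul_div, div_le_div_iff₀ (by positivity) (by positivity)]
    have : 16 * (N : ℝ) * nV * M * (24 * b) = nV * b * (384 * N * M) := by ring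
    rw [this]
    calc (nV : ℝ) * b * (384 * N * M) ≤ nV * b * (q * C) :=
          mul_le_mul_of_nonneg_left n4r (by positivity)
      _ = nV * (b * (q * C)) := by ring
  have hbb : 12 * (nV : ℝ) * (w ^ 2 * (k + 1) ^ 2 * k) / B1 * M ≤ nV / (24 * b) := by
    rw [div_mul_eq_mul_div, div_le_div_iff₀ B1pos (by positivity)]
    calc 12 * (nV : ℝ) * (w ^ 2 * (k + 1) ^ 2 * k) * M * (24 * b)
        = nV * (288 * b * (w ^ 2 * (k + 1) ^ 2 * k) * M) := by ring
      _ ≤ (nV : ℝ) * B1 := mul_le_mul_of_nonneg_left n5r nVpos.le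
  have hc : (8 + (w : ℝ) * (k + 1) * k) * M ≤ nV / (24 * b) := by
    rw [le_div_iff₀ (by positivity)]
    calc (8 + (w : ℝ) * (k + 1) * k) * M * (24 * b)
        = 24 * b * (8 + w * (k + 1) * k) * M := by ring
      _ ≤ nV := n6r
  have hfin : (s : ℝ) * M ≤ nV / (8 * b) := by
    calc (s : ℝ) * M ≤ (16 * N * nV / (b * (q * C)) + 12 * nV * (w ^ 2 * (k + 1) ^ 2 * k) / B1
          + (8 + w * (k + 1) * k)) * M := mul_le_mul_of_nonneg_right hsr Mpos.le
      _ = 16 * N * nV / (b * (q * C)) * M + 12 * nV * (w ^ 2 * (k + 1) ^ 2 * k) / B1 * M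
          + (8 + w * (k + 1) * k) * M := by ring
      _ ≤ nV / (24 * b) + nV / (24 * b) + nV / (24 * b) := by linarith
      _ = nV / (8 * b) := by field_simp; norm_num
  have hXr : (nV : ℝ) / (8 * b) ≤ X.card := by
    calc (nV : ℝ) / (8 * b) = nV / (4 * (2 * b)) := by congr 1; ring
      _ ≤ X.card := hXcard
  have : (T.card : ℝ) * M < X.card := by
    calc (T.card : ℝ) * M < s * M := mul_lt_mul_of_pos_right hTsr Mpos
      _ ≤ _ := hfin.trans hXr
  exact_mod_cast this

end Pool.Agent.N554.TG
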