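import Pool.Agent.N554.TG.Stm

set_option autoImplicit false

open Finset

namespace Pool.Agent.N554.TG

/-- The tangency graph of the unit balls with centres in `S`: two balls are adjacent when they
touch, i.e. when their centres are at distance `2`. -/
def tangencyGraph {d : ℕ} (S : Finset (EuclideanSpace ℝ (Fin d))) : SimpleGraph S where
  Adj x y := dist (x : EuclideanSpace ℝ (Fin d)) y = 2
  symm := ⟨fun x y h => by rw [dist_comm]; exact h⟩
  loopless := ⟨fun x h => by
    have h' : dist (x : EuclideanSpace ℝ (Fin d)) x = 2 := h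
    rw [dist_self] at h'
    norm_num at h'⟩

/-- `χ(d)`: the supremum of the chromatic numbers of the tangency graphs of the finite systems of
nonoverlapping unit balls of `ℝ^d`. -/
noncomputable def chi (d : ℕ) : ℕ∞ :=
  ⨆ (S : Finset (EuclideanSpace ℝ (Fin d))) (_ : Packing d S), (tangencyGraph S).chromaticNumber

lemma colorableWith_of_colorable {d : ℕ} {S : Finset (EuclideanSpace ℝ (Fin d))} {m : ℕ}
    (hm : 0 < m) (h : (tangencyGraph S).Colorable m) : ColorableWith S m := by
  classical
  obtain ⟨C⟩ := h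
  refine ⟨fun x => if hx : x ∈ S then C ⟨x, hx⟩ else ⟨0, hm⟩, ?_⟩
  intro x hx y hy hxy heq
  simp only [hx, hy, dif_pos] at heq
  exact C.valid (v := ⟨x, hx⟩) (w := ⟨y, hy⟩) hxy heq

theorem chi_bound (h : S_ASY) : ∃ c : ℝ, 0 < c ∧ ∃ D : ℕ, ∀ d : ℕ, D ≤ d → ∀ m : ℕ,
    (m : ℝ) ≤ Real.exp (c * Real.log d ^ 2 / Real.log (Real.log d)) → (m : ℕ∞) < chi d := by
  obtain ⟨c, hc, D, hD⟩ := h
  refine ⟨c, hc, max D 16, ?_⟩
  intro d hd m hm
  obtain ⟨S, hS, hcol⟩ := hD d ((le_max_left _ _).trans hd)
  have hd16 : (16 : ℝ) ≤ d := by exact_mod_cast (le_max_right D 16).trans hd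
  have hlog : Real.exp 1 ≤ d := by
    have := Real.exp_one_lt_d9
    linarith
  have hl1 : 1 ≤ Real.log d := by
    rw [Real.le_log_iff_exp_le (by linarith)]; exact hlog
  have hll : 0 ≤ Real.log (Real.log d) := Real.log_nonneg hl1
  have hexp : (1 : ℝ) ≤ Real.exp (c * Real.log d ^ 2 / Real.log (Real.log d)) := by
    apply Real.one_le_exp
    positivity
  by_contra hcon
  rw [not_lt] at hcon
  have h1 : (tangencyGraph S).chromaticNumber ≤ m := by
    refine le_trans ?_ hcon
    exact le_iSup₂_of_le S hS le_rfl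
  have h2 : (tangencyGraph S).Colorable m := by
    exact SimpleGraph.chromaticNumber_le_iff_colorable.mp h1
  rcases Nat.eq_zero_or_pos m with hm0 | hm0
  · have h3 : (tangencyGraph S).Colorable 1 := h2.mono (by omega)
    exact hcol 1 (by simpa using hexp) (colorableWith_of_colorable (by norm_num) h3)
  · exact hcol m hm (colorableWith_of_colorable hm0 h2)

end Pool.Agent.N554.TG
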