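import Mathlib

/-!
# Superpolynomial lower bound for the chromatic number of unit ball packings: statements

`q` prime, `F = ZMod q`, blocks `Fin k → F` (coefficient vectors of polynomials of degree `< k`),
words `G q k N = Fin N → Fin k → ZMod q` of `N` blocks.
-/

set_option autoImplicit false

open Finset

namespace Pool.Agent.N554.TG

/-- value at `ω` of the polynomial with coefficients `z` -/
def ev {q k : ℕ} (z : Fin k → ZMod q) (ω : ZMod q) : ZMod q := ∑ j, z j * ω ^ (j : ℕ)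

/-- the zeros of the polynomial with coefficients `z` -/
def zeros {q k : ℕ} [NeZero q] (z : Fin k → ZMod q) : Finset (ZMod q) :=
  univ.filter (fun ω => ev z ω = 0)

/-- words of `N` blocks -/
abbrev G (q k N : ℕ) : Type := Fin N → Fin k → ZMod q

/-- the blocks where two words differ -/
def dif {q k N : ℕ} (u v : G q k N) : Finset (Fin N) := univ.filter (fun i => u i ≠ v i)

/-- different words which differ in fewer than `t` blocks -/
def bad {q k N : ℕ} (t : ℕ) (u v : G q k N) : Prop := u ≠ v ∧ (dif u v).card < t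

/-- words which differ in exactly `t` blocks, and in each of these blocks the two polynomials
agree at exactly `k - 1` points (the largest possible number) -/
def adj {q k N : ℕ} [NeZero q] (t : ℕ) (u v : G q k N) : Prop :=
  (dif u v).card = t ∧ ∀ i ∈ dif u v, (zeros (u i - v i)).card = k - 1

instance {q k N : ℕ} (t : ℕ) : DecidableRel (bad (q := q) (k := k) (N := N) t) := fun u v => by
  unfold bad; infer_instance

instance {q k N : ℕ} [NeZero q] (t : ℕ) : DecidableRel (adj (q := q) (k := k) (N := N) t) :=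
  fun u v => by unfold adj; infer_instance

/-- HAM: pairs at Hamming distance exactly `t` in a subset of `F_q^N` -/
def S_HAM : Prop := ∀ (q N t : ℕ) [Fact q.Prime], 1 ≤ t → t ≤ N → 2 * t * N ≤ q →
  ∀ S : Finset (Fin N → ZMod q),
    (1 / 2 : ℝ) * (q : ℝ) ^ t * (N.choose t : ℝ) * (S.card : ℝ) ^ 2 / (q : ℝ) ^ N
        - (N : ℝ) * (q : ℝ) ^ (t - 1) * (S.card : ℝ)
      ≤ (((S ×ˢ S).filter
          (fun p => (univ.filter (fun i => p.1 i ≠ p.2 i)).card = t)).card : ℝ)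

/-- RS: zeros of polynomials of degree `< k` -/
def S_RS : Prop := ∀ (q k : ℕ) [Fact q.Prime], 1 ≤ k → k ≤ q →
  (∀ z : Fin k → ZMod q, z ≠ 0 → (zeros z).card ≤ k - 1) ∧
  ∃ m : Finset (ZMod q) → (Fin k → ZMod q), ∀ R : Finset (ZMod q), R.card = k - 1 →
    ∀ a : ZMod q, a ≠ 0 → zeros (a • m R) = R

/-- LIFT: many adjacent pairs in every large set of words -/
def S_LIFT : Prop := ∀ (q k N t : ℕ) [Fact q.Prime], 1 ≤ k → k ≤ q → 1 ≤ t → t ≤ N →
  2 * t * N ≤ q → ∀ A : Finset (G q k N),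
    ((q.choose (k - 1) : ℕ) : ℝ) ^ t *
      ((1 / 2 : ℝ) * (q : ℝ) ^ t * (N.choose t : ℝ) * (A.card : ℝ) ^ 2 / (q : ℝ) ^ (k * N)
        - (N : ℝ) * (q : ℝ) ^ (t - 1) * (A.card : ℝ))
      ≤ (((A ×ˢ A).filter (fun p => adj t p.1 p.2)).card : ℝ)

/-- BAD: the number of words which differ from `u` in fewer than `t` blocks -/
def S_BAD : Prop := ∀ (q k N t : ℕ) [Fact q.Prime], 1 ≤ t → t ≤ N → ∀ u : G q k N,
  (univ.filter (fun v => bad t u v)).card ≤ N.choose (t - 1) * q ^ (k * (t - 1))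

/-- NUM: numerical inequalities, `k = 4 κ`, `N = q / (2 k)`, `w = Nat.clog 2 q` -/
def S_NUM : Prop := ∀ (κ q k N w : ℕ), 2 ≤ κ → k = 4 * κ → k ^ (4 * k) ≤ q → N = q / (2 * k) →
  w = Nat.clog 2 q →
  2 * k * N ≤ q ∧ 2 * k ≤ N ∧ q ≤ 2 ^ w ∧
  384 * N * q ^ (2 * κ) ≤ q * N.choose k ∧
  288 * (N.choose (k - 1) * q ^ (k * (k - 1))) * (w ^ 2 * (k + 1) ^ 2 * k) * q ^ (2 * κ)
    ≤ (q.choose (k - 1)) ^ k * q ^ k * N.choose k ∧
  24 * (N.choose (k - 1) * q ^ (k * (k - 1))) * (8 + w * (k + 1) * k) * q ^ (2 * κ)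
    ≤ q ^ (k * N) ∧
  (q.choose (k - 1)) ^ k * q ^ k * N.choose k ≤ q ^ ((k + 1) * k) ∧
  q ^ ((k + 1) * k) ≤ q ^ (k * N)

/-- CORE: the random code -/
def S_CORE : Prop := ∀ (κ q k N : ℕ) [Fact q.Prime], 2 ≤ κ → k = 4 * κ → k ^ (4 * k) ≤ q →
  N = q / (2 * k) →
  ∃ X : Finset (G q k N), (∀ u ∈ X, ∀ v ∈ X, ¬ bad k u v) ∧
    ∀ T ⊆ X, (∀ u ∈ T, ∀ v ∈ T, ¬ adj k u v) → T.card * q ^ (2 * κ) < X.card

/-- centres of unit balls with pairwise disjoint interiors -/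
def Packing (d : ℕ) (S : Finset (EuclideanSpace ℝ (Fin d))) : Prop :=
  ∀ x ∈ S, ∀ y ∈ S, x ≠ y → 2 ≤ dist x y

/-- the balls with centres in `S` can be coloured with `m` colours so that touching balls get
different colours -/
def ColorableWith {d : ℕ} (S : Finset (EuclideanSpace ℝ (Fin d))) (m : ℕ) : Prop :=
  ∃ f : EuclideanSpace ℝ (Fin d) → Fin m, ∀ x ∈ S, ∀ y ∈ S, dist x y = 2 → f x ≠ f y

/-- GEO: from the code to a packing of balls in `R^d`, `d ≥ q^3` -/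
def S_GEO : Prop := ∀ (κ q : ℕ) [Fact q.Prime], 2 ≤ κ → (4 * κ) ^ (16 * κ) ≤ q →
  ∀ d : ℕ, q ^ 3 ≤ d → ∃ S : Finset (EuclideanSpace ℝ (Fin d)), Packing d S ∧
    ¬ ColorableWith S (q ^ (2 * κ))

/-- ASY: the final form -/
def S_ASY : Prop := ∃ c : ℝ, 0 < c ∧ ∃ D : ℕ, ∀ d : ℕ, D ≤ d →
  ∃ S : Finset (EuclideanSpace ℝ (Fin d)), Packing d S ∧
    ∀ m : ℕ, (m : ℝ) ≤ Real.exp (c * Real.log d ^ 2 / Real.log (Real.log d)) →
      ¬ ColorableWith S m

end Pool.Agent.N554.TG
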